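import Pool.Agent.Lib.MP_862c25_an.Exists

open Pool.Agent.Lib.MP_862c25_an

/-- The Jones tower of `Δ_4 ⊆ M_4` exists, and in it, for all `a`, `b` on the unit circle, the
intersection of the spin model subfactors `R_u(a)` and `R_u(b)` is a factor; it even has trivial
relative commutant in `R`. -/
theorem Pool.Agent.Results.MP_862c25_an.IntersectionIsFactor.result :
    (∃ (H : Type) (_ : NormedAddCommGroup H) (_ : InnerProductSpace ℂ H) (_ : CompleteSpace H),
      Nonempty (JonesTower H)) ∧
    ∀ (H : Type) [NormedAddCommGroup H] [InnerProductSpace ℂ H] [CompleteSpace H]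
      (T : JonesTower H) (a b : ℂ), ‖a‖ = 1 → ‖b‖ = 1 →
      IsFactor (vnInter (T.spin (hadamard a)) (T.spin (hadamard b))) ∧
        ∀ x ∈ T.R, x ∈ (vnInter (T.spin (hadamard a)) (T.spin (hadamard b))).commutant →
          ∃ c : ℂ, x = c • (1 : H →L[ℂ] H) :=
  ⟨⟨HH, inferInstance, inferInstance, inferInstance, ⟨model⟩⟩,
    fun _ _ _ _ T a b _ _ => ⟨T.isFactor a b, fun _ hx hc => T.irreducible a b hx hc⟩⟩
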