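import Pool.Agent.Lib.MP_862c25_an.RE.Orbit

open Pool.Agent.Lib.MP_862c25_an

/-- The Jones tower of `Δ_4 ⊆ M_4` exists, and in it, for `a`, `b`, `c` on the unit circle, the
intersection of the spin model subfactors `R_u(a)` and `R_u(b)` is contained in `R_u(c)` if and
only if `c ^ (2 m) = a ^ (2 m)` for every `m` with `a ^ (2 m) = b ^ (2 m)`. For an irrational angle
between `a` and `b` only `m = 0` occurs, so that the intersection lies in every `R_u(c)`. -/
theorem Pool.Agent.Results.MP_862c25_an.IntersectionOrbit.result :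
    (∃ (H : Type) (_ : NormedAddCommGroup H) (_ : InnerProductSpace ℂ H) (_ : CompleteSpace H),
      Nonempty (JonesTower H)) ∧
    ∀ (H : Type) [NormedAddCommGroup H] [InnerProductSpace ℂ H] [CompleteSpace H]
      (T : JonesTower H) (a b c : ℂ), ‖a‖ = 1 → ‖b‖ = 1 → ‖c‖ = 1 →
      ((∀ x ∈ vnInter (T.spin (hadamard a)) (T.spin (hadamard b)), x ∈ T.spin (hadamard c)) ↔
        ∀ m : ℕ, a ^ (2 * m) = b ^ (2 * m) → c ^ (2 * m) = a ^ (2 * m)) :=
  ⟨⟨HH, inferInstance, inferInstance, inferInstance, ⟨model⟩⟩,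
    fun _ _ _ _ T _ _ _ ha hb hc => Iff.trans
      ⟨fun h x h1 h2 => h x ⟨h1, h2⟩, fun h x hx => h x hx.1 hx.2⟩ (RE.orbit_iff T ha hb hc)⟩
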