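import Pool.Agent.Lib.MP_862c25_an.RE.Entropy

open Pool.Agent.Lib.MP_862c25_an

/-- The Jones tower of `Δ_4 ⊆ M_4` exists, and in it, for all `a ≠ ± b` on the unit circle, the
Connes-Stormer relative entropy `H(R_u(a) | R_u(b))` of the spin model subfactors is `log 2`. -/
theorem Pool.Agent.Results.MP_862c25_an.RelativeEntropy.result :
    (∃ (H : Type) (_ : NormedAddCommGroup H) (_ : InnerProductSpace ℂ H) (_ : CompleteSpace H),
      Nonempty (JonesTower H)) ∧
    ∀ (H : Type) [NormedAddCommGroup H] [InnerProductSpace ℂ H] [CompleteSpace H]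
      (T : JonesTower H) (a b : ℂ), ‖a‖ = 1 → ‖b‖ = 1 → a ≠ b → a ≠ -b →
      T.HasRelEntropy (T.spin (hadamard a)) (T.spin (hadamard b)) (Real.log 2) :=
  ⟨⟨HH, inferInstance, inferInstance, inferInstance, ⟨model⟩⟩,
    fun _ _ _ _ T _ _ ha hb h1 h2 => RE.relEntropy T ha hb h1 h2⟩
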